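import Pool.Agent.Y160.EN.Stm

/-!
# EN-R: `u(ρ_i) ∏_{j ≠ i} (ρ_i - ρ_j) ^ (ε_j)` is not a `p`-th power for a positive proportion
-/

set_option autoImplicit false
set_option maxHeartbeats 400000

open Polynomial

namespace Pool.Agent.Y430.EN

open Pool.Agent.Y160.T3 (mF bF gen_ex mF_eq bF_add)
open Pool.Agent.Y160.EN

section one

variable {F : Type} [Field F] [Fintype F] [DecidableEq F]

theorem bF_single {D : ℕ} (i : Fin D) (hi : (i : ℕ) = 0) (c : F) :
    (bF (Pi.single i c : Fin D → F)) = C c := by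
  unfold bF
  rw [Finset.sum_eq_single i]
  · rw [Pi.single_eq_same, hi, pow_zero, mul_one]
  · intro j _ hj
    rw [Pi.single_eq_of_ne hj, C_0, zero_mul]
  · intro h
    exact absurd (Finset.mem_univ i) h

theorem eval_add {D : ℕ} (i : Fin D) (hi : (i : ℕ) = 0) (a : Fin D → F) (c t : F) :
    (mF (a + Pi.single i c)).eval t = (mF a).eval t + c := by
  rw [mF_eq, mF_eq, bF_add, bF_single i hi, ← add_assoc, Polynomial.eval_add, eval_C]

/-- the `a` such that the value at `t` times `κ` is not a `p`-th power -/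
noncomputable def B (D p : ℕ) (t κ : F) : Finset (Fin D → F) :=
  open Classical in Finset.univ.filter fun a => ∀ y : F, y ^ p ≠ (mF a).eval t * κ

theorem step1 {D p : ℕ} (hp : p.Prime) (hD : 0 < D) (hpF : p ∣ Fintype.card F - 1) (t κ : F)
    (hκ : κ ≠ 0) : Fintype.card F ^ D * (Fintype.card F - 1) ≤
      p * (Fintype.card F * (B D p t κ).card) := by
  classical
  obtain ⟨g₀, hg₀, hg₀N⟩ := gen_ex F
  set Θ : Finset F := (Finset.univ.erase (0 : F)).image fun y => g₀ * y ^ p with hΘ
  have h1 : Fintype.card F - 1 ≤ p * Θ.card := by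
    have e1 := Finset.card_le_mul_card_image (f := fun y : F => g₀ * y ^ p)
      (Finset.univ.erase (0 : F)) p (fun b hb => by
        obtain ⟨y₀, -, hy₀⟩ := Finset.mem_image.1 hb
        have e2 : ((Finset.univ.erase (0 : F)).filter fun y => g₀ * y ^ p = b) ⊆
            (nthRoots p (y₀ ^ p)).toFinset := by
          intro y hy
          have e3 := (Finset.mem_filter.1 hy).2
          rw [← hy₀] at e3
          rw [Multiset.mem_toFinset, mem_nthRoots hp.pos]
          exact mul_left_cancel₀ hg₀ e3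
        exact (Finset.card_le_card e2).trans ((Multiset.toFinset_card_le _).trans
          (card_nthRoots p _)))
    rw [Finset.card_erase_of_mem (Finset.mem_univ _), Finset.card_univ] at e1
    exact e1
  let i₀ : Fin D := ⟨0, hD⟩
  have h2 : ((Finset.univ : Finset (Fin D → F)) ×ˢ Θ).card ≤
      ((Finset.univ : Finset F) ×ˢ B D p t κ).card := by
    refine Finset.card_le_card_of_injOn
      (fun x => (x.1 i₀, x.1 + Pi.single i₀ (x.2 / κ - (mF x.1).eval t))) ?_ ?_
    · rintro ⟨a, θ⟩ hx
      have hθ : θ ∈ Θ := (Finset.mem_product.1 hx).2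
      have hmem : a + Pi.single i₀ (θ / κ - (mF a).eval t) ∈ B D p t κ := by
        unfold B
        rw [Finset.mem_filter]
        refine ⟨Finset.mem_univ _, ?_⟩
        intro y hy
        rw [eval_add i₀ rfl, add_sub_cancel, div_mul_cancel₀ _ hκ] at hy
        rw [hΘ, Finset.mem_image] at hθ
        obtain ⟨z, hz, hz'⟩ := hθ
        have hz0 : z ≠ 0 := (Finset.mem_erase.1 hz).1
        refine hg₀N p hp hpF (y / z) ?_
        rw [div_pow, hy, ← hz', mul_div_assoc, div_self (pow_ne_zero _ hz0), mul_one]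
      exact Finset.mem_product.2 ⟨Finset.mem_univ _, hmem⟩
    · rintro ⟨a, θ⟩ _ ⟨a', θ'⟩ _ h
      have e1 : a i₀ = a' i₀ := congrArg Prod.fst h
      have e2 : a + Pi.single i₀ (θ / κ - (mF a).eval t) =
          a' + Pi.single i₀ (θ' / κ - (mF a').eval t) := congrArg Prod.snd h
      have e3 : a = a' := by
        funext j
        by_cases hj : j = i₀
        · rw [hj, e1]
        · have e4 := congrFun e2 j
          rwa [Pi.add_apply, Pi.add_apply, Pi.single_eq_of_ne hj, Pi.single_eq_of_ne hj, add_zero,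
            add_zero] at e4
      subst e3
      have e5 := congrFun e2 i₀
      rw [Pi.add_apply, Pi.add_apply, Pi.single_eq_same, Pi.single_eq_same] at e5
      have e6 : θ / κ = θ' / κ := sub_left_injective (add_left_cancel e5)
      have e7 : θ = θ' := by
        rw [← div_mul_cancel₀ θ hκ, e6, div_mul_cancel₀ _ hκ]
      rw [e7]
  rw [Finset.card_product, Finset.card_product, Finset.card_univ, Finset.card_univ,
    Fintype.card_fun, Fintype.card_fin] at h2
  calc Fintype.card F ^ D * (Fintype.card F - 1) ≤ Fintype.card F ^ D * (p * Θ.card) :=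
        Nat.mul_le_mul_left _ h1
    _ = p * (Fintype.card F ^ D * Θ.card) := by ring
    _ ≤ p * (Fintype.card F * (B D p t κ).card) := Nat.mul_le_mul_left _ h2

/-- points different from the `i`-th -/
noncomputable def G {n : ℕ} (i : Fin n) : Finset (Fin n → F) :=
  open Classical in Finset.univ.filter fun ρ => ∀ j, j ≠ i → ρ j ≠ ρ i

theorem card_G {n : ℕ} (i : Fin n) : Fintype.card F * (Fintype.card F - 1) ^ n ≤
    (Fintype.card F - 1) * (G (F := F) i).card := by
  classical
  let S : F → Fin n → Finset F := fun c j => if j = i then {c} else Finset.univ.erase c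
  have h1 : ∀ c, (Fintype.card F - 1) * (Fintype.piFinset (S c)).card =
      (Fintype.card F - 1) ^ n := by
    intro c
    rw [Fintype.card_piFinset]
    have h2 : (Fintype.card F - 1) =
        ∏ j : Fin n, (if j = i then Fintype.card F - 1 else 1) := by
      rw [Finset.prod_ite_eq' Finset.univ i fun _ => Fintype.card F - 1,
        if_pos (Finset.mem_univ _)]
    have h3 : (Fintype.card F - 1) ^ n = ∏ j : Fin n, (Fintype.card F - 1) := by
      rw [Finset.prod_const, Finset.card_univ, Fintype.card_fin]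
    rw [h3]
    conv_lhs => rw [h2]
    rw [← Finset.prod_mul_distrib]
    refine Finset.prod_congr rfl fun j _ => ?_
    by_cases hj : j = i
    · simp only [S, if_pos hj, Finset.card_singleton, mul_one]
    · simp only [S, if_neg hj, Finset.card_erase_of_mem (Finset.mem_univ c), Finset.card_univ,
        one_mul]
  have h4 : ((Finset.univ : Finset F).sigma fun c => Fintype.piFinset (S c)).card ≤
      (G (F := F) i).card := by
    refine Finset.card_le_card_of_injOn (fun x => x.2) ?_ ?_
    · rintro ⟨c, ρ⟩ hx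
      have hρ : ρ ∈ Fintype.piFinset (S c) := (Finset.mem_sigma.1 hx).2
      rw [Fintype.mem_piFinset] at hρ
      refine Finset.mem_filter.2 ⟨Finset.mem_univ _, ?_⟩
      intro j hj
      have e1 := hρ i
      have e2 := hρ j
      simp only [S, if_pos, Finset.mem_singleton] at e1
      simp only [S, if_neg hj, Finset.mem_erase] at e2
      change ρ j ≠ ρ i
      rw [e1]
      exact e2.1
    · rintro ⟨c, ρ⟩ hx ⟨c', ρ'⟩ hx' h
      change ρ = ρ' at h
      subst h
      have hρ : ρ ∈ Fintype.piFinset (S c) := (Finset.mem_sigma.1 hx).2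
      have hρ' : ρ ∈ Fintype.piFinset (S c') := (Finset.mem_sigma.1 hx').2
      rw [Fintype.mem_piFinset] at hρ hρ'
      have e1 := hρ i
      have e2 := hρ' i
      simp only [S, if_pos, Finset.mem_singleton] at e1 e2
      rw [← e1, ← e2]
  rw [Finset.card_sigma] at h4
  calc Fintype.card F * (Fintype.card F - 1) ^ n
      = ∑ c : F, (Fintype.card F - 1) * (Fintype.piFinset (S c)).card := by
        rw [Finset.sum_congr rfl fun c _ => h1 c, Finset.sum_const, Finset.card_univ, smul_eq_mul]
    _ = (Fintype.card F - 1) * ∑ c : F, (Fintype.piFinset (S c)).card := by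
        rw [Finset.mul_sum]
    _ ≤ _ := Nat.mul_le_mul_left _ h4

end one

theorem t_R : St_R := by
  intro n D p hp hD
  refine ⟨2 ^ n * p, 0, ?_⟩
  intro F _ _ hpF _ i ε
  classical
  set q := Fintype.card F with hq
  have hq2 : 2 ≤ q := Fintype.one_lt_card
  set K : (Fin n → F) → F := fun ρ => ∏ j ∈ Finset.univ.erase i, (ρ i - ρ j) ^ ε j with hK
  have h1 : {x : (Fin n → F) × (Fin D → F) | ∀ y : F, y ^ p ≠ (mF x.2).eval (x.1 i) *
        ∏ j ∈ Finset.univ.erase i, (x.1 i - x.1 j) ^ ε j}.ncard =
      ∑ ρ : Fin n → F, (B D p (ρ i) (K ρ)).card := by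
    rw [Set.ncard_eq_toFinset_card', Set.toFinset_ofPred, Finset.card_filter,
      Fintype.sum_prod_type]
    refine Finset.sum_congr rfl fun ρ _ => ?_
    unfold B
    rw [Finset.card_filter]
  rw [h1]
  have h2 : ∀ ρ ∈ G (F := F) i, q ^ D * (q - 1) ≤ p * (q * (B D p (ρ i) (K ρ)).card) := by
    intro ρ hρ
    apply step1 hp hD hpF
    rw [hK]
    refine Finset.prod_ne_zero_iff.2 fun j hj => pow_ne_zero _ ?_
    have hj' := (Finset.mem_erase.1 hj).1
    exact sub_ne_zero.2 (Ne.symm ((Finset.mem_filter.1 hρ).2 j hj'))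
  have h3 : (G (F := F) i).card * (q ^ D * (q - 1)) ≤
      p * (q * ∑ ρ : Fin n → F, (B D p (ρ i) (K ρ)).card) := by
    rw [Finset.mul_sum, Finset.mul_sum]
    refine le_trans ?_ (Finset.sum_le_sum_of_subset (Finset.subset_univ (G (F := F) i)))
    rw [← smul_eq_mul, ← Finset.sum_const]
    exact Finset.sum_le_sum h2
  have h4 := card_G (F := F) i
  rw [← hq] at h4
  set A := ∑ ρ : Fin n → F, (B D p (ρ i) (K ρ)).card with hA
  -- `q (q - 1) ^ n q ^ D ≤ p q A`
  have h5 : q * ((q - 1) ^ n * q ^ D) ≤ q * (p * A) := by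
    calc q * ((q - 1) ^ n * q ^ D) = (q * (q - 1) ^ n) * q ^ D := by ring
      _ ≤ ((q - 1) * (G (F := F) i).card) * q ^ D := Nat.mul_le_mul_right _ h4
      _ = (G (F := F) i).card * (q ^ D * (q - 1)) := by ring
      _ ≤ p * (q * A) := h3
      _ = q * (p * A) := by ring
  have h6 : (q - 1) ^ n * q ^ D ≤ p * A := Nat.le_of_mul_le_mul_left h5 (by omega)
  have h7 : q ^ n ≤ 2 ^ n * (q - 1) ^ n := by
    rw [← mul_pow]
    exact Nat.pow_le_pow_left (by omega) n
  calc q ^ (n + D) = q ^ n * q ^ D := pow_add _ _ _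
    _ ≤ (2 ^ n * (q - 1) ^ n) * q ^ D := Nat.mul_le_mul_right _ h7
    _ = 2 ^ n * ((q - 1) ^ n * q ^ D) := by ring
    _ ≤ 2 ^ n * (p * A) := Nat.mul_le_mul_left _ h6
    _ = 2 ^ n * p * A := by ring

end Pool.Agent.Y430.EN
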